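import Pool.Agent.MP_7e38b0_nt.Cases

set_option autoImplicit false
set_option linter.unusedSectionVars false
set_option linter.unusedVariables false

namespace Pool.Agent.Results.MP_7e38b0_nt.MVSPPowerSubspace

open Polynomial Pool.Agent.MP_7e38b0_nt

/-- The value set `V_f = {f(a) : a ∈ F}` of a polynomial `f`. -/
def valueSet {F : Type*} [Field F] (f : F[X]) : Set F := Set.range (fun a : F => f.eval a)

/-- `f` is a minimal value set polynomial over the finite field `F` with `q` elements:
`f` is nonconstant and `#V_f = ⌊(q - 1) / deg f⌋ + 1`. -/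
def IsMVSP {F : Type*} [Field F] [Fintype F] (f : F[X]) : Prop :=
  0 < f.natDegree ∧ (valueSet f).ncard = (Fintype.card F - 1) / f.natDegree + 1

/-- `PSet S` is the set of all minimal value set polynomials with value set `S`. -/
def PSet {F : Type*} [Field F] [Fintype F] (S : Set F) : Set F[X] :=
  {f | IsMVSP f ∧ valueSet f = S}

/-- `powSet S v = {s ^ v : s ∈ S}`. -/
def powSet {F : Type*} [Field F] (S : Set F) (v : ℕ) : Set F := (fun s : F => s ^ v) '' S

section Aux

variable {F : Type*} [Field F] [Fintype F]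

theorem mem_PSet (S : Set F) (r : ℕ) (hr : S.ncard = r + 1) (f : F[X]) :
    f ∈ PSet S ↔ 0 < f.natDegree ∧ valueSet f = S ∧ r * f.natDegree < Fintype.card F := by
  unfold PSet IsMVSP
  simp only [Set.mem_ofPred_eq]
  constructor
  · rintro ⟨⟨h1, h2⟩, h3⟩
    refine ⟨h1, h3, ?_⟩
    have h4 := (mvsp_iff f h1).mp h2
    unfold valueSet at h3
    rw [h3, hr, Nat.add_sub_cancel] at h4
    exact h4
  · rintro ⟨h1, h2, h3⟩
    refine ⟨⟨h1, ?_⟩, h2⟩
    apply (mvsp_iff f h1).mpr
    unfold valueSet at h2
    rw [h2, hr, Nat.add_sub_cancel]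
    exact h3

theorem PSet_pow (K : Subfield F) (S : Set F) (h0 : (0 : F) ∈ S)
    (hS : ∀ c ∈ K, ∀ x ∈ S, c * x ∈ S) (v r : ℕ) (hv : 1 ≤ v) (hvd : v ∣ Nat.card K - 1)
    (hr : v * r + 1 = S.ncard) (hr1 : 1 ≤ r)
    (hmain : ∀ P : F[X], 0 < P.natDegree → valueSet P = powSet S v →
      r * P.natDegree < Fintype.card F → ∃ (c : F) (f : F[X]), c ≠ 0 ∧ P = C c * f ^ v) :
    PSet (powSet S v) = {g | ∃ f ∈ PSet S, g = f ^ v} := by
  have hcard : (powSet S v).ncard = r + 1 := ncard_pow_image K v r hv hvd S h0 hS hr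
  ext P
  rw [mem_PSet _ r hcard, Set.mem_ofPred_eq]
  constructor
  · rintro ⟨h1, h2, h3⟩
    obtain ⟨c, f, hc, hPf⟩ := hmain P h1 h2 h3
    obtain ⟨g, hg1, hg2, hg3, hg4⟩ := descend K S h0 hS v r hv hvd hr hr1 P h1 h2 h3 c f hc hPf
    exact ⟨g, (mem_PSet S (v * r) hr.symm g).mpr ⟨hg2, hg3, hg4⟩, hg1⟩
  · rintro ⟨g, hg, rfl⟩
    obtain ⟨hg1, hg2, hg3⟩ := (mem_PSet S (v * r) hr.symm g).mp hg
    refine ⟨?_, ?_, ?_⟩
    · rw [natDegree_pow]; exact Nat.mul_pos hv hg1
    · rw [← hg2]
      unfold valueSet powSet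
      ext y
      simp
    · rw [natDegree_pow]
      calc r * (v * g.natDegree) = v * r * g.natDegree := by ring
        _ < _ := hg3

theorem ncard_roots_le (s : ℕ) (hs : 0 < s) : ({x : F | x = 0 ∨ x ^ s = 1} : Set F).ncard ≤ s + 1 := by
  classical
  have h1 : ({x : F | x = 0 ∨ x ^ s = 1} : Set F) =
      ((insert 0 (nthRootsFinset s (1 : F)) : Finset F) : Set F) := by
    ext x
    simp [mem_nthRootsFinset hs]
  rw [h1, Set.ncard_coe_finset]
  refine (Finset.card_insert_le _ _).trans ?_
  apply Nat.add_le_add_right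
  unfold nthRootsFinset
  exact (Multiset.toFinset_card_le _).trans (card_nthRoots s 1)

end Aux

/-- The conjecture holds: let `F` be a field with `p ^ n` elements, `K` its subfield with `p ^ k`
elements, `v` a divisor of `p ^ k - 1` and `U` a `K`-subspace of `F` of dimension `m` containing
`1`, with `#U^v > 2`. If `U` is not a field, then `P(U^v, q) = {f ^ v : f ∈ P(U, q)}`; if `U` is a
field and `p ^ e` is the number of elements of the smallest subfield containing `U^v`, then
`P(U^v, q) = {f ^ t : f ∈ P(𝔽_{p^e}, q)}` with `t = (p ^ e - 1) v / (p ^ (m k) - 1)`. -/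
theorem result (p n k v m : ℕ) (hp : p.Prime) {F : Type*} [Field F] [Fintype F]
    (hF : Fintype.card F = p ^ n) (K : Subfield F) (hK : Nat.card K = p ^ k)
    (hv : v ∣ p ^ k - 1) (U : Submodule K F) (hm : Module.finrank K U = m) (h1U : (1 : F) ∈ U)
    (hU : 2 < (powSet (U : Set F) v).ncard) :
    ((¬ ∃ L : Subfield F, (L : Set F) = (U : Set F)) →
      PSet (powSet (U : Set F) v) = {g | ∃ f ∈ PSet (U : Set F), g = f ^ v}) ∧
    ((∃ L : Subfield F, (L : Set F) = (U : Set F)) →
      ∃ e t : ℕ, Nat.card (Subfield.closure (powSet (U : Set F) v)) = p ^ e ∧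
        t * (p ^ (m * k) - 1) = (p ^ e - 1) * v ∧
        PSet (powSet (U : Set F) v) =
          {g | ∃ f ∈ PSet (Subfield.closure (powSet (U : Set F) v) : Set F), g = f ^ t}) := by
  classical
  have : Fact p.Prime := ⟨hp⟩
  have : CharP F p := charP_of_card_eq_prime_pow hF
  have hKcard : 1 < Nat.card K := Finite.one_lt_card
  have hk : 1 ≤ k := by
    rcases Nat.eq_zero_or_pos k with h | h
    · rw [hK, h, pow_zero] at hKcard; exact absurd hKcard (lt_irrefl _)
    · exact h
  have hn : 1 ≤ n := by
    rcases Nat.eq_zero_or_pos n with h | h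
    · have h1 : 1 < Fintype.card F := Fintype.one_lt_card
      rw [hF, h, pow_zero] at h1; exact absurd h1 (lt_irrefl _)
    · exact h
  have hQ1 : 1 < p ^ k := Q_gt hk
  -- the dimension of `F` over `K`
  obtain ⟨n', hn'⟩ : ∃ n', Fintype.card F = (p ^ k) ^ n' := by
    refine ⟨Module.finrank K F, ?_⟩
    rw [← hK, ← Module.natCard_eq_pow_finrank, Nat.card_eq_fintype_card]
  have hn'1 : 1 ≤ n' := by
    rcases Nat.eq_zero_or_pos n' with h | h
    · have h1 : 1 < Fintype.card F := Fintype.one_lt_card
      rw [hn', h, pow_zero] at h1; exact absurd h1 (lt_irrefl _)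
    · exact h
  obtain ⟨s1, hs1⟩ := hv
  have hvs : v * s1 + 1 = p ^ k := by omega
  have hv1 : 1 ≤ v := by
    rcases Nat.eq_zero_or_pos v with h | h
    · rw [h, zero_mul] at hvs; omega
    · exact h
  have hvd : v ∣ Nat.card K - 1 := by rw [hK, hs1]; exact dvd_mul_right _ _
  have hUcard : (U : Set F).ncard = (p ^ k) ^ m := by
    rw [← card_U hK hm]; rfl
  have hr : v * NN s1 (p ^ k) m + 1 = (U : Set F).ncard := by
    rw [hUcard]; exact v_mul_NN hvs m
  have hsmul : ∀ c ∈ K, ∀ x ∈ (U : Set F), c * x ∈ (U : Set F) := by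
    intro c hc x hx
    exact U.smul_mem ⟨c, hc⟩ hx
  have hcard := ncard_pow_image K v (NN s1 (p ^ k) m) hv1 hvd (U : Set F) U.zero_mem hsmul hr
  have hr2 : 2 ≤ NN s1 (p ^ k) m := by
    have h1 : (powSet (U : Set F) v).ncard = NN s1 (p ^ k) m + 1 := hcard
    omega
  refine ⟨?_, ?_⟩
  · intro hnf
    have hm2 : 2 ≤ m := by
      by_contra hlt
      have hKU : (K : Set F) ⊆ (U : Set F) := by
        intro x hx
        have h1 : (⟨x, hx⟩ : K) • (1 : F) ∈ U := U.smul_mem _ h1U
        have h2 : (⟨x, hx⟩ : K) • (1 : F) = x := by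
          rw [Subfield.smul_def]; simp
        rw [h2] at h1
        exact h1
      apply hnf
      refine ⟨K, Set.eq_of_subset_of_ncard_le hKU ?_⟩
      rw [hUcard]
      have h1 : (K : Set F).ncard = p ^ k := hK
      rw [h1]
      calc (p ^ k) ^ m ≤ (p ^ k) ^ 1 := Nat.pow_le_pow_right (by omega) (by omega)
        _ = p ^ k := pow_one _
    apply PSet_pow K (U : Set F) U.zero_mem hsmul v (NN s1 (p ^ k) m) hv1 hvd hr (by omega)
    intro P hP1 hP2 hP3
    exact space_case n' v s1 hk hK hm hm2 h1U hn' hn'1 hvs P hP1 hP3 hP2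
  · rintro ⟨L, hL⟩
    set s := NN s1 (p ^ k) m with hs
    set S : Set F := powSet (U : Set F) v with hS
    set K2 : Subfield F := Subfield.closure S with hK2
    -- the elements of `S`
    have hLcard : Nat.card L = v * s + 1 := by
      rw [hr, ← hL]; rfl
    have hSroots : ∀ x ∈ S, x = 0 ∨ x ^ s = 1 := by
      rintro _ ⟨u, hu, rfl⟩
      by_cases hu0 : u = 0
      · left
        simp only
        rw [hu0, zero_pow (by omega)]
      · right
        simp only
        rw [← pow_mul]
        have huL : u ∈ L := by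
          have : u ∈ (L : Set F) := by rw [hL]; exact hu
          exact this
        have h2 : Fintype.card L - 1 = v * s := by
          rw [← Nat.card_eq_fintype_card, hLcard]; rfl
        have h3 := FiniteField.pow_card_sub_one_eq_one (⟨u, huL⟩ : L)
          (fun h => hu0 (congrArg (fun y : L => (y : F)) h))
        rw [h2] at h3
        have := congrArg (fun y : L => (y : F)) h3
        simpa using this
    have hSsub : S ⊆ (K2 : Set F) := Subfield.subset_closure
    -- a primitive `s`-th root of unity in `S`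
    obtain ⟨ζ, hζ⟩ := exists_primitive L (v * s) (Nat.mul_pos hv1 (by omega)) (by
      rw [hLcard, Nat.add_sub_cancel])
    have hη : IsPrimitiveRoot ((ζ : F) ^ v) s := hζ.pow (Nat.mul_pos hv1 (by omega)) rfl
    have hηS : (ζ : F) ^ v ∈ S := by
      refine ⟨(ζ : F), ?_, rfl⟩
      rw [← hL]; exact ζ.2
    -- cardinality of `K2`
    obtain ⟨e, hen, hK2card⟩ : ∃ e, e ∣ n ∧ Nat.card K2 = p ^ e := by
      have h1 : Nat.card F = Nat.card K2 ^ Module.finrank K2 F := Module.natCard_eq_pow_finrank
      rw [Nat.card_eq_fintype_card, hF] at h1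
      have hfr : 0 < Module.finrank K2 F := Module.finrank_pos
      have h2 : Nat.card K2 ∣ p ^ n := by
        rw [h1]; exact dvd_pow_self _ hfr.ne'
      obtain ⟨e, _, he⟩ := (Nat.dvd_prime_pow hp).mp h2
      refine ⟨e, ?_, he⟩
      rw [he, ← pow_mul] at h1
      have h3 := Nat.pow_right_injective hp.two_le h1
      exact ⟨_, h3⟩
    have hK2card1 : 1 < Nat.card K2 := Finite.one_lt_card
    have he1 : 1 ≤ e := by
      rcases Nat.eq_zero_or_pos e with h | h
      · rw [hK2card, h, pow_zero] at hK2card1; exact absurd hK2card1 (lt_irrefl _)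
      · exact h
    have hpe : 1 < p ^ e := Q_gt he1
    have hη0 : (ζ : F) ^ v ≠ 0 := hη.ne_zero (by omega)
    have hsd : s ∣ p ^ e - 1 := by
      apply hη.dvd_of_pow_eq_one
      have h1 := frobK hK2card ⟨(ζ : F) ^ v, hSsub hηS⟩
      simp only at h1
      have h2 : ((ζ : F) ^ v) ^ (p ^ e) = ((ζ : F) ^ v) ^ (p ^ e - 1) * (ζ : F) ^ v := by
        rw [← pow_succ, Nat.sub_add_cancel (by omega)]
      rw [h2] at h1
      exact mul_right_cancel₀ hη0 (by rw [h1, one_mul])
    obtain ⟨t, ht⟩ := hsd
    have hts : t * s = p ^ e - 1 := by rw [mul_comm]; exact ht.symm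
    have ht1 : 1 ≤ t := by
      rcases Nat.eq_zero_or_pos t with h | h
      · rw [h, zero_mul] at hts; omega
      · exact h
    have hnd : ∀ j, 1 ≤ j → j < e → ¬ s ∣ p ^ j - 1 := by
      intro j hj1 hje hdvd
      obtain ⟨d, hd⟩ := hdvd
      have hpj : 1 < p ^ j := Q_gt hj1
      have h1 : K2 ≤ RingHom.eqLocusField (iterateFrobenius F p j) (RingHom.id F) := by
        rw [hK2, Subfield.closure_le]
        intro x hx
        show iterateFrobenius F p j x = x
        rw [iterateFrobenius_def]
        rcases hSroots x hx with h | h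
        · rw [h, zero_pow (by omega)]
        · have h2 : p ^ j = s * d + 1 := by omega
          rw [h2, pow_succ, pow_mul, h, one_pow, one_mul]
      -- too many roots
      have h2 : ∀ x ∈ K2, x ^ p ^ j = x := by
        intro x hx
        have h3 : iterateFrobenius F p j x = x := h1 hx
        rwa [iterateFrobenius_def] at h3
      have h3 : (X ^ p ^ j - X : F[X]) = 0 := by
        apply eq_zero_of_natDegree_lt_card_of_eval_eq_zero' _ (K2 : Set F).toFinset
        · intro x hx
          rw [Set.mem_toFinset] at hx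
          simp [h2 x hx]
        · rw [FiniteField.X_pow_card_sub_X_natDegree_eq F hpj, ← Set.ncard_eq_toFinset_card']
          have h4 : (K2 : Set F).ncard = p ^ e := hK2card
          rw [h4]
          exact Nat.pow_lt_pow_right hp.one_lt hje
      exact FiniteField.X_pow_card_sub_X_ne_zero F hpj h3
    -- `S = K2 ^ t`
    have hK2mul : ∀ c ∈ K2, ∀ x ∈ (K2 : Set F), c * x ∈ (K2 : Set F) :=
      fun c hc x hx => K2.mul_mem hc hx
    have htd : t ∣ Nat.card K2 - 1 := by rw [hK2card, ← hts]; exact dvd_mul_right _ _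
    have hK2r : t * s + 1 = (K2 : Set F).ncard := by
      have h4 : (K2 : Set F).ncard = p ^ e := hK2card
      rw [h4, hts]; omega
    have hK2pow : (powSet (K2 : Set F) t).ncard = s + 1 :=
      ncard_pow_image K2 t s ht1 htd (K2 : Set F) K2.zero_mem hK2mul hK2r
    have hSeq : S = {x : F | x = 0 ∨ x ^ s = 1} := by
      refine Set.eq_of_subset_of_ncard_le ?_ ?_ (Set.toFinite _)
      · intro x hx; exact hSroots x hx
      · have h1 : S.ncard = s + 1 := hcard
        rw [h1]; exact ncard_roots_le s (by omega)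
    have hK2eq : powSet (K2 : Set F) t = {x : F | x = 0 ∨ x ^ s = 1} := by
      refine Set.eq_of_subset_of_ncard_le ?_ ?_ (Set.toFinite _)
      · rintro _ ⟨x, hx, rfl⟩
        by_cases hx0 : x = 0
        · left
          simp only
          rw [hx0, zero_pow (by omega)]
        · right
          simp only
          rw [← pow_mul, hts]
          have h1 := frobK hK2card ⟨x, hx⟩
          simp only at h1
          have h2 : x ^ (p ^ e) = x ^ (p ^ e - 1) * x := by
            rw [← pow_succ, Nat.sub_add_cancel (by omega)]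
          rw [h2] at h1
          exact mul_right_cancel₀ hx0 (by rw [h1, one_mul])
      · rw [hK2pow]; exact ncard_roots_le s (by omega)
    refine ⟨e, t, hK2card, ?_, ?_⟩
    · have h1 : p ^ (m * k) - 1 = v * s := by
        have h2 := v_mul_NN hvs m
        rw [mul_comm m k, pow_mul, ← h2, Nat.add_sub_cancel]
      rw [h1, ← hts]; ring
    · have hS2 : S = powSet (K2 : Set F) t := by rw [hSeq, hK2eq]
      have key := PSet_pow K2 (K2 : Set F) K2.zero_mem hK2mul t s ht1 htd hK2r (by omega)
        (by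
          intro P hP1 hP2 hP3
          rw [hK2eq] at hP2
          have hval : ∀ τ : F, P.eval τ = 0 ∨ (P.eval τ) ^ s = 1 := by
            intro τ
            have : P.eval τ ∈ valueSet P := ⟨τ, rfl⟩
            rw [hP2] at this
            exact this
          have hroot : ∃ τ : F, P.eval τ = 0 := by
            have : (0 : F) ∈ valueSet P := by rw [hP2]; exact Or.inl rfl
            exact this
          exact field_case n e s t hF he1 hen hn hts hr2 hnd P hP1 hP3 hval hroot)
      rw [hS2]
      exact key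

end Pool.Agent.Results.MP_7e38b0_nt.MVSPPowerSubspace
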